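import Pool.Agent.Helper1.Stab.Basic

/-! # Packet SHC CM-ROT (MP_ab4156_gt): rotations -/

open Topology Filter Set

noncomputable section

namespace Pool.Agent.Helper74.Stab

open Pool.Agent.Helper1.Stab

section conn

variable {𝕜 : Type} [Field 𝕜] [TopologicalSpace 𝕜] {n : Type}

/-- `A` is connected to the identity by invertible linear maps. -/
def Conn (A : (n → 𝕜) ≃ₗ[𝕜] (n → 𝕜)) : Prop := ∃ H : unitInterval → (n → 𝕜) ≃ₗ[𝕜] (n → 𝕜),
  Continuous (fun x : unitInterval × (n → 𝕜) => H x.1 x.2) ∧
  Continuous (fun x : unitInterval × (n → 𝕜) => (H x.1).symm x.2) ∧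
  (∀ v, H 0 v = v) ∧ ∀ v, H 1 v = A v

theorem Conn.refl : Conn (LinearEquiv.refl 𝕜 (n → 𝕜)) :=
  ⟨fun _ => LinearEquiv.refl 𝕜 (n → 𝕜), continuous_snd, continuous_snd, fun _ => rfl, fun _ => rfl⟩

theorem Conn.trans {A B : (n → 𝕜) ≃ₗ[𝕜] (n → 𝕜)} (hA : Conn A) (hB : Conn B) :
    Conn (A.trans B) := by
  obtain ⟨H, a1, a2, a3, a4⟩ := hA
  obtain ⟨H', b1, b2, b3, b4⟩ := hB
  refine ⟨fun t => (H t).trans (H' t), ?_, ?_, fun v => ?_, fun v => ?_⟩
  · exact b1.comp (continuous_fst.prodMk a1)
  · exact a2.comp (continuous_fst.prodMk b2)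
  · rw [LinearEquiv.trans_apply, a3, b3]
  · rw [LinearEquiv.trans_apply, LinearEquiv.trans_apply, a4, b4]

theorem Conn.congr {A B : (n → 𝕜) ≃ₗ[𝕜] (n → 𝕜)} (hA : Conn A) (h : ∀ v, A v = B v) :
    Conn B := by
  obtain ⟨H, a1, a2, a3, a4⟩ := hA
  exact ⟨H, a1, a2, a3, fun v => (a4 v).trans (h v)⟩

/-- The permutation of the coordinates. -/
def permL (𝕜 : Type) [Field 𝕜] {n : Type} (σ : Equiv.Perm n) : (n → 𝕜) ≃ₗ[𝕜] (n → 𝕜) where
  toFun v := fun i => v (σ i)
  map_add' _ _ := rfl
  map_smul' _ _ := rfl
  invFun v := fun i => v (σ.symm i)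
  left_inv v := by funext i; simp
  right_inv v := by funext i; simp

omit [TopologicalSpace 𝕜] in
theorem permL_apply (σ : Equiv.Perm n) (v : n → 𝕜) (i : n) : permL 𝕜 σ v i = v (σ i) := rfl

end conn

section real

variable {n : Type} [DecidableEq n]

/-- The rotation in the plane of two coordinates. -/
def rotF (a b : n) (θ : ℝ) (v : n → ℝ) : n → ℝ := fun i =>
  if i = a then Real.cos θ * v a + Real.sin θ * v b
  else if i = b then -Real.sin θ * v a + Real.cos θ * v b else v i

theorem rotF_rotF {a b : n} (hab : a ≠ b) (θ φ : ℝ) (v : n → ℝ) :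
    rotF a b θ (rotF a b φ v) = rotF a b (θ + φ) v := by
  funext i
  unfold rotF
  by_cases hi : i = a
  · simp only [hi, if_true, if_neg hab.symm]
    rw [Real.cos_add, Real.sin_add]
    ring
  · by_cases hi' : i = b
    · simp only [hi', if_true, if_neg hab.symm]
      rw [Real.cos_add, Real.sin_add]
      ring
    · simp only [if_neg hi, if_neg hi']

theorem rotF_zero {a b : n} (v : n → ℝ) : rotF a b 0 v = v := by
  funext i
  unfold rotF
  by_cases hi : i = a
  · simp [hi]
  · by_cases hi' : i = b
    · simp [hi']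
      intro h
      rw [h]
    · simp [hi, hi']

/-- The rotation as a linear equivalence. -/
def rotL {a b : n} (hab : a ≠ b) (θ : ℝ) : (n → ℝ) ≃ₗ[ℝ] (n → ℝ) where
  toFun := rotF a b θ
  map_add' v w := by
    funext i
    simp only [rotF, Pi.add_apply]
    split_ifs <;> ring
  map_smul' c v := by
    funext i
    simp only [rotF, Pi.smul_apply, smul_eq_mul, RingHom.id_apply]
    split_ifs <;> ring
  invFun := rotF a b (-θ)
  left_inv v := by rw [rotF_rotF hab, neg_add_cancel, rotF_zero]
  right_inv v := by rw [rotF_rotF hab, add_neg_cancel, rotF_zero]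

theorem rotF_cont {X : Type} [TopologicalSpace X] (a b : n) (f : X → ℝ) (g : X → n → ℝ)
    (hf : Continuous f) (hg : Continuous g) : Continuous fun x => rotF a b (f x) (g x) := by
  refine continuous_pi fun i => ?_
  have hg' : ∀ i, Continuous fun x => g x i := fun i => (continuous_apply i).comp hg
  unfold rotF
  split_ifs
  · exact ((Real.continuous_cos.comp hf).mul (hg' a)).add
      ((Real.continuous_sin.comp hf).mul (hg' b))
  · exact (((Real.continuous_sin.comp hf).neg).mul (hg' a)).add
      ((Real.continuous_cos.comp hf).mul (hg' b))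
  · exact hg' i

theorem conn_rotL {a b : n} (hab : a ≠ b) (θ : ℝ) : Conn (rotL hab θ) := by
  refine ⟨fun t => rotL hab (t * θ), ?_, ?_, fun v => ?_, fun v => ?_⟩
  · exact rotF_cont a b _ _ ((continuous_subtype_val.comp continuous_fst).mul continuous_const)
      continuous_snd
  · exact rotF_cont a b _ _
      ((continuous_subtype_val.comp continuous_fst).mul continuous_const).neg continuous_snd
  · change rotF a b _ v = v
    simp [rotF_zero]
  · change rotF a b _ v = rotF a b θ v
    simp

/-- The sign change of one coordinate. -/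
def flp (i : n) : (n → ℝ) ≃ₗ[ℝ] (n → ℝ) where
  toFun v := fun j => if j = i then -v j else v j
  map_add' v w := by
    funext j
    simp only [Pi.add_apply]
    split_ifs <;> ring
  map_smul' c v := by
    funext j
    simp only [Pi.smul_apply, smul_eq_mul, RingHom.id_apply]
    split_ifs <;> ring
  invFun v := fun j => if j = i then -v j else v j
  left_inv v := by
    funext j
    by_cases h : j = i <;> simp [h]
  right_inv v := by
    funext j
    by_cases h : j = i <;> simp [h]

theorem flp_apply (i : n) (v : n → ℝ) (j : n) : flp i v j = if j = i then -v j else v j := rfl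

theorem flp_flp (i : n) (v : n → ℝ) : flp i (flp i v) = v := (flp i).left_inv v

theorem conn_flp_flp (i x : n) : Conn ((flp i).trans (flp x)) := by
  by_cases h : i = x
  · subst h
    refine Conn.refl.congr fun v => ?_
    rw [LinearEquiv.trans_apply, flp_flp]
    rfl
  · refine (conn_rotL h Real.pi).congr fun v => ?_
    funext j
    rw [LinearEquiv.trans_apply, flp_apply, flp_apply]
    change rotF i x Real.pi v j = _
    unfold rotF
    by_cases h1 : j = i
    · simp [h1, h]
    · by_cases h2 : j = x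
      · simp [h2, Ne.symm h]
      · simp [h1, h2]

theorem conn_swap_flp {x y : n} (hxy : x ≠ y) :
    Conn ((permL ℝ (Equiv.swap x y)).trans (flp x)) := by
  refine (conn_rotL hxy (-(Real.pi / 2))).congr fun v => ?_
  funext j
  rw [LinearEquiv.trans_apply, flp_apply, permL_apply]
  change rotF x y (-(Real.pi / 2)) v j = _
  unfold rotF
  by_cases h1 : j = x
  · simp [h1]
  · by_cases h2 : j = y
    · simp [h2, hxy.symm]
    · rw [if_neg h1, if_neg h2, if_neg h1, Equiv.swap_apply_of_ne_of_ne h1 h2]

theorem conn_flp_swap {x y : n} (hxy : x ≠ y) :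
    Conn ((flp x).trans (permL ℝ (Equiv.swap x y))) := by
  refine (conn_rotL hxy (Real.pi / 2)).congr fun v => ?_
  funext j
  rw [LinearEquiv.trans_apply, permL_apply, flp_apply]
  change rotF x y (Real.pi / 2) v j = _
  unfold rotF
  by_cases h1 : j = x
  · simp [h1, hxy.symm]
  · by_cases h2 : j = y
    · simp [h2, hxy.symm]
    · rw [if_neg h1, if_neg h2, Equiv.swap_apply_of_ne_of_ne h1 h2, if_neg h1]

theorem conn_perm [Fintype n] (σ : Equiv.Perm n) :
    (Equiv.Perm.sign σ = 1 → Conn (permL ℝ σ)) ∧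
    (Equiv.Perm.sign σ = -1 → ∀ i, Conn ((flp i).trans (permL ℝ σ))) := by
  induction σ using Equiv.Perm.swap_induction_on with
  | one =>
    refine ⟨fun _ => Conn.refl.congr fun v => rfl, fun h => ?_⟩
    rw [Equiv.Perm.sign_one] at h
    exact absurd h (by decide)
  | swap_mul f x y hxy ih =>
    have hs : Equiv.Perm.sign (Equiv.swap x y * f) = - Equiv.Perm.sign f := by
      rw [Equiv.Perm.sign_mul, Equiv.Perm.sign_swap hxy]
      simp
    rw [hs]
    refine ⟨fun h => ?_, fun h i => ?_⟩
    · have h1 : Equiv.Perm.sign f = -1 := by rw [← h, neg_neg]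
      refine ((conn_swap_flp hxy).trans (ih.2 h1 x)).congr fun v => ?_
      rw [LinearEquiv.trans_apply, LinearEquiv.trans_apply, LinearEquiv.trans_apply, flp_flp]
      rfl
    · have h1 : Equiv.Perm.sign f = 1 := by
        rw [← neg_neg (Equiv.Perm.sign f), h, neg_neg]
      refine ((conn_flp_flp i x).trans ((conn_flp_swap hxy).trans (ih.1 h1))).congr fun v => ?_
      simp only [LinearEquiv.trans_apply, flp_flp]
      rfl

end real

section complex

variable {n : Type} [DecidableEq n]

/-- A path from the identity (`z = 1`) to the transposition (`z = -1`). -/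
def uF (a b : n) (z : ℂ) (v : n → ℂ) : n → ℂ := fun i =>
  if i = a then (1 + z) / 2 * v a + (1 - z) / 2 * v b
  else if i = b then (1 - z) / 2 * v a + (1 + z) / 2 * v b else v i

theorem uF_uF {a b : n} (hab : a ≠ b) (z w : ℂ) (v : n → ℂ) :
    uF a b z (uF a b w v) = uF a b (z * w) v := by
  funext i
  unfold uF
  by_cases hi : i = a
  · simp only [hi, if_true, if_neg hab.symm]
    ring
  · by_cases hi' : i = b
    · simp only [hi', if_true, if_neg hab.symm]
      ring
    · simp only [if_neg hi, if_neg hi']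

theorem uF_one {a b : n} (v : n → ℂ) : uF a b 1 v = v := by
  funext i
  unfold uF
  by_cases hi : i = a
  · simp [hi]
  · by_cases hi' : i = b
    · simp [hi']
      intro h
      rw [h]
    · simp [hi, hi']

/-- The same as a linear equivalence. -/
def uL {a b : n} (hab : a ≠ b) (z : ℂ) (hz : z ≠ 0) : (n → ℂ) ≃ₗ[ℂ] (n → ℂ) where
  toFun := uF a b z
  map_add' v w := by
    funext i
    simp only [uF, Pi.add_apply]
    split_ifs <;> ring
  map_smul' c v := by
    funext i
    simp only [uF, Pi.smul_apply, smul_eq_mul, RingHom.id_apply]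
    split_ifs <;> ring
  invFun := uF a b z⁻¹
  left_inv v := by rw [uF_uF hab, inv_mul_cancel₀ hz, uF_one]
  right_inv v := by rw [uF_uF hab, mul_inv_cancel₀ hz, uF_one]

theorem uF_cont {X : Type} [TopologicalSpace X] (a b : n) (f : X → ℂ) (g : X → n → ℂ)
    (hf : Continuous f) (hg : Continuous g) : Continuous fun x => uF a b (f x) (g x) := by
  refine continuous_pi fun i => ?_
  have hg' : ∀ i, Continuous fun x => g x i := fun i => (continuous_apply i).comp hg
  unfold uF
  split_ifs
  · exact (((continuous_const.add hf).div_const 2).mul (hg' a)).add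
      (((continuous_const.sub hf).div_const 2).mul (hg' b))
  · exact (((continuous_const.sub hf).div_const 2).mul (hg' a)).add
      (((continuous_const.add hf).div_const 2).mul (hg' b))
  · exact hg' i

theorem conn_swapC {a b : n} (hab : a ≠ b) : Conn (permL ℂ (Equiv.swap a b)) := by
  have hc : Continuous fun x : unitInterval × (n → ℂ) =>
      Complex.exp ((x.1 : ℝ) * (Real.pi * Complex.I)) := by
    refine Complex.continuous_exp.comp (Continuous.mul ?_ continuous_const)
    exact Complex.continuous_ofReal.comp (continuous_subtype_val.comp continuous_fst)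
  refine ⟨fun t => uL hab (Complex.exp ((t : ℝ) * (Real.pi * Complex.I))) (Complex.exp_ne_zero _),
    ?_, ?_, fun v => ?_, fun v => ?_⟩
  · exact uF_cont a b _ _ hc continuous_snd
  · exact uF_cont a b _ _ (hc.inv₀ fun _ => Complex.exp_ne_zero _) continuous_snd
  · change uF a b _ v = v
    simp [uF_one]
  · change uF a b _ v = fun i => v (Equiv.swap a b i)
    have h1 : Complex.exp (((1 : unitInterval) : ℝ) * (Real.pi * Complex.I)) = -1 := by
      simp
    rw [h1]
    funext j
    unfold uF
    by_cases h1 : j = a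
    · simp [h1]
    · by_cases h2 : j = b
      · simp [h2, hab.symm]
      · rw [if_neg h1, if_neg h2, Equiv.swap_apply_of_ne_of_ne h1 h2]

theorem conn_permC [Fintype n] (σ : Equiv.Perm n) : Conn (permL ℂ σ) := by
  induction σ using Equiv.Perm.swap_induction_on with
  | one => exact Conn.refl.congr fun v => rfl
  | swap_mul f x y hxy ih => exact ((conn_swapC hxy).trans ih).congr fun v => rfl

end complex

/-- A continuous family of homeomorphisms is a homotopy. -/
theorem homotopic_of_family {K L : LC} (H : unitInterval → K ≃ L)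
    (h1 : Continuous fun x : unitInterval × K => H x.1 x.2)
    (h2 : Continuous fun x : unitInterval × L => (H x.1).symm x.2) (f g : PMap K L.plus)
    (hf : ∀ k, f k = ((H 0 k : L) : OnePoint L)) (hg : ∀ k, g k = ((H 1 k : L) : OnePoint L)) :
    f.Homotopic g := by
  let Φ : LC.I.prod K ≃ₜ LC.I.prod L :=
    { toFun := fun x => (x.1, H x.1 x.2)
      invFun := fun x => (x.1, (H x.1).symm x.2)
      left_inv := fun x => by simp
      right_inv := fun x => by simp
      continuous_toFun := continuous_fst.prodMk h1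
      continuous_invFun := continuous_fst.prodMk h2 }
  refine ⟨(PMap.prI L).comp (PMap.ofHomeo Φ), fun k => ?_, fun k => ?_⟩
  · rw [hf]; rfl
  · rw [hg]; rfl

theorem exists_rotation {n : Type} [Fintype n] [DecidableEq n] (σ : Equiv.Perm n)
    (h : Equiv.Perm.sign σ = 1) : ∃ H : unitInterval → (n → ℝ) ≃ₗ[ℝ] (n → ℝ),
      Continuous (fun x : unitInterval × (n → ℝ) => H x.1 x.2) ∧
      Continuous (fun x : unitInterval × (n → ℝ) => (H x.1).symm x.2) ∧
      (∀ v, H 0 v = v) ∧ ∀ v, H 1 v = fun i => v (σ i) :=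
  (conn_perm σ).1 h

theorem perm_homotopic {n : Type} [Fintype n] [DecidableEq n] (σ : Equiv.Perm n)
    (h : Equiv.Perm.sign σ = 1) :
    (PMap.ofHomeo (Homeomorph.piCongrLeft (Y := fun _ : n => ℝ) σ : LC.rpow n ≃ₜ LC.rpow n)).Homotopic
      (PMap.id (LC.rpow n)) := by
  obtain ⟨H, a1, a2, a3, a4⟩ := exists_rotation σ⁻¹ (by rw [Equiv.Perm.sign_inv]; exact h)
  refine (homotopic_of_family (K := LC.rpow n) (L := LC.rpow n) (fun t => (H t).toEquiv) a1 a2
    _ _ (fun k => ?_) (fun k => ?_)).symm
  · exact congrArg (fun v : n → ℝ => (v : OnePoint (n → ℝ))) (a3 k).symm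
  · refine congrArg (fun v : n → ℝ => (v : OnePoint (n → ℝ))) (Eq.trans ?_ (a4 k).symm)
    funext i
    obtain ⟨j, rfl⟩ := σ.surjective i
    change Equiv.piCongrLeft (fun _ : n => ℝ) σ k (σ j) = k (σ.symm (σ j))
    rw [Equiv.symm_apply_apply]
    exact Equiv.piCongrLeft_apply_apply (fun _ : n => ℝ) σ k j

theorem permC_homotopic {n : Type} [Fintype n] [DecidableEq n] (σ : Equiv.Perm n) :
    (PMap.ofHomeo (Homeomorph.piCongrLeft (Y := fun _ : n => ℂ) σ : LC.cpow n ≃ₜ LC.cpow n)).Homotopic
      (PMap.id (LC.cpow n)) := by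
  obtain ⟨H, a1, a2, a3, a4⟩ := conn_permC σ⁻¹
  refine (homotopic_of_family (K := LC.cpow n) (L := LC.cpow n) (fun t => (H t).toEquiv) a1 a2
    _ _ (fun k => ?_) (fun k => ?_)).symm
  · exact congrArg (fun v : n → ℂ => (v : OnePoint (n → ℂ))) (a3 k).symm
  · refine congrArg (fun v : n → ℂ => (v : OnePoint (n → ℂ))) (Eq.trans ?_ (a4 k).symm)
    funext i
    obtain ⟨j, rfl⟩ := σ.surjective i
    change Equiv.piCongrLeft (fun _ : n => ℂ) σ k (σ j) = k (σ.symm (σ j))
    rw [Equiv.symm_apply_apply]
    exact Equiv.piCongrLeft_apply_apply (fun _ : n => ℂ) σ k j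

end Pool.Agent.Helper74.Stab
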