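import Pool.Agent.Helper74.Stab.Dual2

/-! The powers of the orientation class on projective space and the dual basis. -/

open Topology Filter Set Matrix

noncomputable section

namespace Pool.Agent.Helper74.Stab

open Pool.Agent.Helper1.Stab Pool.Agent.Helper63.Stab

variable {R : Biv} (o : Orient R)

/-- `pt × Z = Z` -/
def lu (Z : LC) : LC.point.prod Z ≃ₜ Z := Homeomorph.punitProd Z

/-- `ℂ^k × ℂ = ℂ^(k+1)` -/
def cc (k : ℕ) : (Cn k).prod LC.C ≃ₜ Cn (k + 1) := Homeomorph.refl ((Cn k).prod LC.C)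

/-- the operator of the tautological line -/
def ET (S : Type) [Fintype S] : R.Hom (LC.Pr S 1) ((LC.Pr S 1).prod LC.C) :=
  o.E (X := LC.Pr S 1) (fun P => P) continuous_id

/-- the powers of the orientation class -/
def up (S : Type) [Fintype S] (i : ℕ) : R.Hom (LC.Pr S 1) (Cn i) :=
  R.comp (pw (ET o S) i)
    (R.comp (R.tens (R.J (PMap.toPoint (LC.Pr S 1))) (Cn i)) (jh R (lu (Cn i))))

theorem up_eq_zero (S : Type) [Fintype S] {i : ℕ} (h : Fintype.card S ≤ i) : up o S i = 0 := by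
  have h1 : pw (ET o S) i = 0 := pw_zero_le _ h (vanish o S _ _ _)
  rw [up, h1, zero_comp]

/-- multiplication by the orientation class -/
theorem ET_up (S : Type) [Fintype S] (k : ℕ) :
    R.comp (ET o S) (R.comp (R.tens (up o S k) LC.C) (jh R (cc k))) = up o S (k + 1) := by
  have hs : Sym (ET o S) := sym_E o _ _
  rw [up, up, pw_succ' _ hs, R.tens_comp, R.tens_comp, tens_jh]
  simp only [R.assoc]
  rw [← R.assoc (jh R (asC (LC.Pr S 1) k)), ← tens_asC, R.assoc, ← jh_trans, ← jh_trans]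
  rfl

theorem ext_up {S T : Type} [Fintype S] [Fintype T] (j : S ↪ T) (k : ℕ) :
    R.comp (R.J (Pr.extM j 1)) (up o T k) = up o S k := by
  have h1 : R.comp (R.J (Pr.extM j 1)) (ET o T) = R.comp (ET o S)
      (R.tens (R.J (Pr.extM j 1)) LC.C) := by
    have h := o.E_natural (Pr.extM j 1) (X := LC.Pr T 1) (Y := LC.Pr S 1) (l := fun P => P)
      (m := fun P => Pr.ext j P) continuous_id (Pr.continuous_ext j) (fun y x hy =>
        OnePoint.coe_injective hy)
    have h2 := o.pj_E_ext (X := LC.Pr S 1) (l := fun P => P) continuous_id j (Pr.continuous_ext j)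
    rw [ET, ET, h, h2]
  rw [up, up, ← R.assoc, pw_natural _ _ _ h1 k, R.assoc, ← R.assoc (R.tens _ _), ← R.tens_comp,
    ← R.J_comp]
  rfl

open Classical in
/-- the projection to a summand, as a function -/
def prDnFun {n : ℕ} (j : Fin n) (k : LC.Dn n) : OnePoint (Cn j) :=
  if h : k.1 = j then ((h ▸ k.2 : Cn j) : OnePoint (Cn j)) else OnePoint.infty

theorem prDn_aux {n : ℕ} (j : Fin n) (V : Set (Cn j)) :
    {k : LC.Dn n | ∃ l ∈ V, prDnFun j k = (l : OnePoint (Cn j))} =
      (fun x : Cn j => (⟨j, x⟩ : Σ i : Fin n, Cn i)) '' V := by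
  ext k
  constructor
  · rintro ⟨l, hl, hk⟩
    obtain ⟨i, x⟩ := k
    by_cases h : i = j
    · subst h
      have h1 : prDnFun i (⟨i, x⟩ : Σ i : Fin n, Cn i) = ((x : Cn i) : OnePoint (Cn i)) :=
        dif_pos rfl
      rw [h1] at hk
      exact ⟨l, hl, by rw [OnePoint.coe_injective hk]⟩
    · have h1 : prDnFun j (⟨i, x⟩ : Σ i : Fin n, Cn i) = OnePoint.infty := dif_neg h
      rw [h1] at hk
      exact absurd hk (OnePoint.infty_ne_coe _)
  · rintro ⟨l, hl, rfl⟩
    exact ⟨l, hl, dif_pos rfl⟩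

/-- the projection to a summand -/
def prDn {n : ℕ} (j : Fin n) : PMap (LC.Dn n) (Cn j).plus :=
  PMap.mk' (K := LC.Dn n) (L := Cn j) (prDnFun j)
    (fun V hV => by
      rw [prDn_aux]
      exact isOpenMap_sigmaMk (σ := fun i : Fin n => ((Cn i : LC) : Type)) V hV)
    (fun V hV => by
      rw [prDn_aux]
      exact hV.image (continuous_sigmaMk (σ := fun i : Fin n => ((Cn i : LC) : Type)) (i := j)))

theorem DnInc_prDn_same {n : ℕ} (j : Fin n) :
    R.comp (R.J (DnInc j)) (R.J (prDn j)) = R.J (PMap.id (Cn j)) := by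
  rw [← R.J_comp]
  congr 1
  ext x
  exact dif_pos rfl

theorem DnInc_prDn_ne {n : ℕ} {i j : Fin n} (h : i ≠ j) :
    R.comp (R.J (DnInc i)) (R.J (prDn j)) = 0 := by
  rw [← R.J_comp, ← R.J_zero]
  congr 1
  ext x
  exact dif_neg h

/-- the sum of all components -/
def PhiT (S : Type) [Fintype S] (n : ℕ) : R.Hom (LC.Pr S 1) (LC.Dn n) :=
  ∑ i : Fin n, R.comp (up o S i) (R.J (DnInc i))

theorem PhiT_prDn (S : Type) [Fintype S] {n : ℕ} (j : Fin n) :
    R.comp (PhiT o S n) (R.J (prDn j)) = up o S j := by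
  rw [PhiT, sum_comp, Finset.sum_eq_single j]
  · rw [R.assoc, DnInc_prDn_same, R.comp_id]
  · intro i _ hi
    rw [R.assoc, DnInc_prDn_ne hi, comp_zero]
  · intro h
    exact absurd (Finset.mem_univ j) h

section
variable (S : Type) [Fintype S]

open Classical in
/-- the whole space -/
def full : Pr S (Fintype.card S) :=
  ⟨1, by simp, by simp, by simp⟩

/-- the family over a point -/
def VT : LC.point → Pr S (Fintype.card S) := fun _ => full S

theorem continuous_VT : Continuous (VT S) := continuous_const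

open Classical in
theorem full_mul (P : Pr S 1) : (full S).1 * P.1 = P.1 := by
  rw [full]
  exact one_mul _

/-- projective space as a projective bundle over a point -/
def eT : LC.Pr S 1 ≃ₜ LC.PV (VT S) (continuous_VT S) where
  toFun P := ⟨(PUnit.unit, P), full_mul S P⟩
  invFun x := x.1.2
  left_inv _ := rfl
  right_inv _ := rfl
  continuous_toFun := Continuous.subtype_mk (continuous_const.prodMk continuous_id) _
  continuous_invFun := continuous_snd.comp continuous_subtype_val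

theorem eT_Phi (i : ℕ) : R.comp (jh R (eT S)) (R.comp (o.Phi (VT S) (continuous_VT S) i)
    (jh R (lu (Cn i)))) = up o S i := by
  have h1 : R.comp (jh R (eT S)) (o.E (PVl (VT S) (continuous_VT S))
      (continuous_PVl (VT S) (continuous_VT S))) = R.comp (ET o S) (R.tens (jh R (eT S)) LC.C) :=
    o.E_natural (PMap.ofHomeo (eT S)) (continuous_PVl (VT S) (continuous_VT S))
      (m := fun P : LC.Pr S 1 => (P : Pr S 1)) continuous_id (fun y x hy => by
        have h := OnePoint.coe_injective hy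
        rw [← h]
        rfl)
  rw [Orient.Phi, Epow_eq_pw, R.assoc, ← R.assoc, pw_natural _ _ _ h1 i, R.assoc,
    ← R.assoc (R.tens _ _) (R.tens _ _), ← R.tens_comp, jh, ← R.J_comp]
  rfl

theorem PhiT_iv : R.Iv (PhiT o S (Fintype.card S)) := by
  have h := o.pbt (VT S) (continuous_VT S)
  have h2 := ((Biv.iv_homeo R (eT S)).comp R h).comp R (Biv.iv_homeo R (lu (LC.Dn
    (Fintype.card S))))
  have e : PhiT o S (Fintype.card S) = R.comp (R.comp (R.J (PMap.ofHomeo (eT S)))
      (∑ i : Fin (Fintype.card S), R.comp (o.Phi (VT S) (continuous_VT S) i)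
        (R.ltens LC.point (R.J (DnInc i))))) (R.J (PMap.ofHomeo (lu (LC.Dn
    (Fintype.card S))))) := by
    rw [PhiT, comp_sum, sum_comp]
    refine Finset.sum_congr rfl fun i _ => ?_
    have h3 : R.comp (R.ltens LC.point (R.J (DnInc i))) (R.J (PMap.ofHomeo (lu (LC.Dn
        (Fintype.card S))))) = R.comp (jh R (lu (Cn i))) (R.J (DnInc i)) := by
      rw [Orient.pj_ltens_J, jh, ← R.J_comp, ← R.J_comp]
      rfl
    rw [R.assoc, R.assoc, h3, ← eT_Phi]
    simp only [R.assoc]
    rfl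
  rw [e]
  exact h2

theorem exists_dual : ∃ b : ∀ i : ℕ, R.Hom (Cn i) (LC.Pr S 1),
    (∀ i, Fintype.card S ≤ i → b i = 0) ∧
    (∀ i j, i < Fintype.card S → i ≠ j → R.comp (b i) (up o S j) = 0) ∧
    (∀ i, i < Fintype.card S → R.comp (b i) (up o S i) = R.J (PMap.id _)) ∧
    ∑ i ∈ Finset.range (Fintype.card S), R.comp (up o S i) (b i) = R.J (PMap.id _) := by
  obtain ⟨Ψ, h1, h2⟩ := PhiT_iv o S
  have h3 : ∀ j : Fin (Fintype.card S), R.comp Ψ (up o S j) = R.J (prDn j) := by
    intro j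
    rw [← PhiT_prDn o S j, ← R.assoc, h2, R.id_comp]
  refine ⟨fun i => if h : i < Fintype.card S then R.comp (R.J (DnInc ⟨i, h⟩)) Ψ else 0,
    fun i hi => dif_neg (by omega), fun i j hi hij => ?_, fun i hi => ?_, ?_⟩
  · simp only [dif_pos hi]
    by_cases hj : j < Fintype.card S
    · rw [R.assoc, h3 ⟨j, hj⟩]
      exact DnInc_prDn_ne (i := ⟨i, hi⟩) (j := ⟨j, hj⟩) fun h => hij (congrArg Fin.val h)
    · rw [up_eq_zero o S (not_lt.1 hj), comp_zero]
  · simp only [dif_pos hi]
    rw [R.assoc, h3 ⟨i, hi⟩]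
    exact DnInc_prDn_same (⟨i, hi⟩ : Fin (Fintype.card S))
  · rw [← h1, PhiT, sum_comp, Finset.sum_range]
    refine Finset.sum_congr rfl fun i _ => ?_
    simp only [dif_pos i.2]
    rw [R.assoc]

end

/-- the properties of a dual basis -/
structure Dual (S : Type) [Fintype S] (b : ∀ i : ℕ, R.Hom (Cn i) (LC.Pr S 1)) : Prop where
  zero : ∀ i, Fintype.card S ≤ i → b i = 0
  ne : ∀ i j, i < Fintype.card S → i ≠ j → R.comp (b i) (up o S j) = 0
  same : ∀ i, i < Fintype.card S → R.comp (b i) (up o S i) = R.J (PMap.id _)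
  sum : ∑ i ∈ Finset.range (Fintype.card S), R.comp (up o S i) (b i) = R.J (PMap.id _)

variable {o}

theorem Dual.expand {S : Type} [Fintype S] {b : ∀ i : ℕ, R.Hom (Cn i) (LC.Pr S 1)}
    (hb : Dual o S b) {K : LC} (x : R.Hom K (LC.Pr S 1)) :
    x = ∑ k ∈ Finset.range (Fintype.card S), R.comp (R.comp x (up o S k)) (b k) := by
  conv_lhs => rw [← R.comp_id x, ← hb.sum, comp_sum]
  refine Finset.sum_congr rfl fun k _ => ?_
  rw [R.assoc]

theorem Dual.ext {S T : Type} [Fintype S] [Fintype T] {b : ∀ i : ℕ, R.Hom (Cn i) (LC.Pr S 1)}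
    {b' : ∀ i : ℕ, R.Hom (Cn i) (LC.Pr T 1)} (hb : Dual o S b) (hb' : Dual o T b') (j : S ↪ T)
    {i : ℕ} (h : i < Fintype.card S) : R.comp (b i) (R.J (Pr.extM j 1)) = b' i := by
  have hi : i < Fintype.card T := lt_of_lt_of_le h (Fintype.card_le_of_embedding j)
  rw [hb'.expand (R.comp (b i) (R.J (Pr.extM j 1))), Finset.sum_eq_single i]
  · rw [R.assoc (b i), ext_up, hb.same i h, R.id_comp]
  · intro k _ hk
    rw [R.assoc (b i), ext_up, hb.ne i k h hk.symm, zero_comp]
  · intro h'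
    exact absurd (Finset.mem_range.2 hi) h'

theorem Dual.expand_tens {S : Type} [Fintype S] {b : ∀ i : ℕ, R.Hom (Cn i) (LC.Pr S 1)}
    (hb : Dual o S b) {K : LC} (x : R.Hom K (LC.Pr S 1)) :
    R.comp x (ET o S) = ∑ k ∈ Finset.range (Fintype.card S),
      R.comp (R.comp x (up o S (k + 1))) (R.comp (jh R (cc k).symm) (R.tens (b k) LC.C)) := by
  have h0 : R.tens (R.J (PMap.id (LC.Pr S 1))) LC.C = R.J (PMap.id ((LC.Pr S 1).prod LC.C)) :=
    tens_id R _ _
  conv_lhs => rw [← R.comp_id (R.comp x (ET o S)), ← h0, ← hb.sum, tens_sum, comp_sum]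
  refine Finset.sum_congr rfl fun k _ => ?_
  rw [← ET_up, R.tens_comp]
  simp only [R.assoc]
  rw [jh_comp_symm]

theorem Dual.cap {S : Type} [Fintype S] {b : ∀ i : ℕ, R.Hom (Cn i) (LC.Pr S 1)}
    (hb : Dual o S b) (i : ℕ) (h : i + 1 < Fintype.card S) :
    R.comp (b (i + 1)) (ET o S) = R.comp (jh R (cc i).symm) (R.tens (b i) LC.C) := by
  rw [hb.expand_tens, Finset.sum_eq_single i]
  · rw [hb.same (i + 1) h, R.id_comp]
  · intro k _ hk
    rw [hb.ne (i + 1) (k + 1) h (by omega), zero_comp]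
  · intro h'
    exact absurd (Finset.mem_range.2 (by omega)) h'

theorem Dual.cap_zero {S : Type} [Fintype S] {b : ∀ i : ℕ, R.Hom (Cn i) (LC.Pr S 1)}
    (hb : Dual o S b) : R.comp (b 0) (ET o S) = 0 := by
  rw [hb.expand_tens]
  refine Finset.sum_eq_zero fun k hk => ?_
  rw [Finset.mem_range] at hk
  rw [hb.ne 0 (k + 1) (by omega) (by omega), zero_comp]

theorem Dual.b_zero {S : Type} [Fintype S] {b : ∀ i : ℕ, R.Hom (Cn i) (LC.Pr S 1)}
    (hb : Dual o S b) (s : S) : b 0 = R.J (PMap.ofPoint (K := LC.Pr S 1) (Pr.line s)) := by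
  have hS : 0 < Fintype.card S := Fintype.card_pos_iff.2 ⟨s⟩
  have h1 : R.comp (R.J (PMap.ofPoint (K := LC.Pr S 1) (Pr.line s))) (ET o S) = 0 := by
    have h := o.E_natural (PMap.ofPoint (K := LC.Pr S 1) (Pr.line s)) (X := LC.Pr S 1)
      (Y := LC.point) (l := fun P => P)
      (m := fun _ => Pr.line s) continuous_id continuous_const (fun y x hy =>
        OnePoint.coe_injective hy)
    rw [ET, h, o.E_const, zero_comp]
  rw [hb.expand (R.J (PMap.ofPoint (K := LC.Pr S 1) (Pr.line s))), Finset.sum_eq_single 0]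
  · have h2 : R.comp (R.J (PMap.ofPoint (K := LC.Pr S 1) (Pr.line s))) (up o S 0) =
        R.J (PMap.id LC.point) := by
      rw [up, pw_zero, jh, jh, R.tens_J, ← R.J_comp, ← R.J_comp, ← R.J_comp]
      rfl
    rw [h2]
    exact (R.id_comp _).symm
  · intro k _ hk
    obtain ⟨k, rfl⟩ := Nat.exists_eq_succ_of_ne_zero hk
    rw [← ET_up, ← R.assoc, h1, zero_comp, zero_comp]
  · intro h'
    exact absurd (Finset.mem_range.2 hS) h'

end Pool.Agent.Helper74.Stab
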