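import Pool.Agent.Helper1.Stab.BSU
import Pool.Agent.Helper1.Stab.PR
import Pool.Agent.Helper68.Stab.Unstable

/-! The maps `V.r` on the Grassmannians of projections: independence of the numbering, compatibility
with stabilisation and base points. -/

open CategoryTheory Topology Filter Set Opposite

noncomputable section

namespace Pool.Agent.Helper74.Stab

open Pool.Agent.Helper1.Stab

/-- renaming the coordinates, as a continuous map -/
def reC {κ l : Type} [Fintype κ] [Fintype l] (e : κ ≃ l) : C(GK κ, GK l) :=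
  ⟨GK.reindex e, (GK.reindex e).continuous⟩

theorem reC_swap {κ : Type} [Fintype κ] [DecidableEq κ] {i j : κ} (hij : i ≠ j) :
    (reC (Equiv.swap i j)).Homotopic (ContinuousMap.id (GK κ)) := by
  refine ContinuousMap.Homotopic.symm ⟨⟨⟨fun x => GK.conj (rotU hij x.1) x.2, rotU_cont hij⟩,
    fun P => ?_, fun P => ?_⟩⟩
  · refine Subtype.ext ?_
    have h : (rotU hij (0 : unitInterval)).1 = 1 := by
      ext x y
      rw [rotU_apply, zpath_zero, rotM_one]
      by_cases hxy : x = y
      · subst hxy
        simp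
      · rw [Matrix.one_apply_ne hxy]
        by_cases h1 : x.1 = y.1
        · have h2 : x.2 ≠ y.2 := fun h2 => hxy (Prod.ext h1 h2)
          rw [Matrix.one_apply_ne h2, mul_zero]
        · rw [Matrix.one_apply_ne h1, zero_mul]
    show (rotU hij (0 : unitInterval)).1 * P.1 * (rotU hij (0 : unitInterval)).1.conjTranspose = P.1
    rw [h, Matrix.conjTranspose_one, Matrix.one_mul, Matrix.mul_one]
  · refine Subtype.ext ?_
    have h : ∀ x y, (rotU hij (1 : unitInterval)).1 x y =
        if (Equiv.swap i j x.1, x.2) = y then 1 else 0 := by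
      intro x y
      rw [rotU_apply, zpath_one, rotM_neg_one hij]
      rcases y with ⟨y1, y2⟩
      by_cases h1 : Equiv.swap i j x.1 = y1
      · by_cases h2 : x.2 = y2
        · subst h1 h2
          simp
        · simp [h1, h2]
      · simp [h1]
    show (rotU hij (1 : unitInterval)).1 * P.1 * (rotU hij (1 : unitInterval)).1.conjTranspose =
      fun x y => P.1 ((Equiv.swap i j).symm x.1, x.2) ((Equiv.swap i j).symm y.1, y.2)
    ext x y
    rw [Matrix.mul_apply, Equiv.symm_swap]
    simp only [Matrix.mul_apply, Matrix.conjTranspose_apply, h]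
    simp only [ite_mul, one_mul, zero_mul, Finset.sum_ite_eq, Finset.mem_univ, if_true]
    rw [Finset.sum_eq_single (Equiv.swap i j y.1, y.2)]
    · rw [if_pos rfl, star_one, mul_one]
    · intro b _ hb
      rw [if_neg (fun h' => hb h'.symm), star_zero, mul_zero]
    · intro h'
      exact absurd (Finset.mem_univ _) h'

theorem reC_perm {κ : Type} [Fintype κ] (e : Equiv.Perm κ) :
    (reC e).Homotopic (ContinuousMap.id (GK κ)) := by
  classical
  refine Equiv.Perm.swap_induction_on (motive := fun e : Equiv.Perm κ =>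
    (reC e).Homotopic (ContinuousMap.id (GK κ))) e ?_ ?_
  · have : reC (1 : Equiv.Perm κ) = ContinuousMap.id (GK κ) := by
      ext v; rfl
    rw [this]
  · intro f x y hxy hf
    have : reC (Equiv.swap x y * f) = (reC (Equiv.swap x y)).comp (reC f) := by
      ext v; rfl
    rw [this]
    exact (reC_swap hxy).comp hf

instance compactGr (D : Set ℂ) (k : ℕ) : CompactSpace (Gr D k) :=
  inferInstanceAs (CompactSpace (Quot _))

/-- subspaces and projections -/
def grH (n : ℕ) : Gr Set.univ n ≃ₜ GK (Fin n) :=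
  Continuous.homeoOfEquivCompactToT2 (f := Equiv.ofBijective Gr.toGK Gr.toGK_bijective)
    Gr.toGK_continuous

theorem grH_apply {n : ℕ} (x : Gr Set.univ n) : grH n x = Gr.toGK x := rfl

/-- the map `V.r` on projections -/
def rMap {κ : Type} [Fintype κ] {n : ℕ} (e : κ ≃ Fin n) (V : DetVec n) : C(GK κ, BG {1}) :=
  (V.r.comp ⟨(grH n).symm, (grH n).symm.continuous⟩).comp (reC e)

theorem rMap_homotopic {κ : Type} [Fintype κ] {m n : ℕ} (e : κ ≃ Fin m) (e' : κ ≃ Fin n)
    (V : DetVec m) (W : DetVec n) : (rMap e V).Homotopic (rMap e' W) := by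
  have hmn : m = n := by
    have h := Fintype.card_congr (e.symm.trans e')
    rwa [Fintype.card_fin, Fintype.card_fin] at h
  subst hmn
  have h1 : reC e' = (reC (e.symm.trans e')).comp (reC e) := by
    ext P
    refine Subtype.ext ?_
    ext x y
    show P.1 (e'.symm x.1, x.2) (e'.symm y.1, y.2) =
      P.1 (e.symm ((e.symm.trans e').symm x.1), x.2) (e.symm ((e.symm.trans e').symm y.1), y.2)
    simp
  have h2 : (reC e).Homotopic (reC e') := by
    rw [h1]
    have h3 := (reC_perm (e.symm.trans e')).symm.comp (ContinuousMap.Homotopic.refl (reC e))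
    exact h3
  exact ((DetVec.r_homotopic V W).comp (ContinuousMap.Homotopic.refl _)).comp h2

theorem base_one {κ : Type} [Fintype κ] {x y : κ × Bool} (h : x = y ∧ x.2 = true) :
    (GK.base κ).1 x y = 1 := if_pos h

theorem base_zero {κ : Type} [Fintype κ] {x y : κ × Bool} (h : ¬ (x = y ∧ x.2 = true)) :
    (GK.base κ).1 x y = 0 := if_neg h

/-- adding base points -/
def stC (κ l : Type) [Fintype κ] [Fintype l] : C(GK κ, GK (κ ⊕ l)) :=
  ⟨fun P => GK.sum (P, GK.base l), GK.continuous_sum.comp (continuous_id.prodMk continuous_const)⟩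

/-- iterated inclusion of a stage -/
def nxD (m : ℕ) : (d : ℕ) → C(Gr Set.univ m, Gr Set.univ (m + d))
  | 0 => ContinuousMap.id _
  | d + 1 => (Gr.next (l := m + d)).comp (nxD m d)

theorem r_nxD {m : ℕ} (V : DetVec m) (d : ℕ) (W : DetVec (m + d)) :
    (W.r.comp (nxD m d)).Homotopic V.r := by
  induction d with
  | zero => exact DetVec.r_homotopic W V
  | succ d ih =>
    obtain ⟨U⟩ := exists_detVec (m + d)
    have h1 := (DetVec.r_next U W).comp (ContinuousMap.Homotopic.refl (nxD m d))
    exact h1.trans (ih U)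

/-- `nxD` on frames -/
theorem nxD_frame {m : ℕ} (A : Frame m) (d : ℕ) : ∃ B : Frame (m + d), B.1 = A.1 ∧
    nxD m d (Quot.mk _ A) = Quot.mk _ B := by
  induction d with
  | zero => exact ⟨A, rfl, rfl⟩
  | succ d ih =>
    obtain ⟨B, hB, hn⟩ := ih
    refine ⟨B.incl, hB, ?_⟩
    show Gr.next (nxD m d (Quot.mk _ A)) = _
    rw [hn]
    rfl

theorem proj_larger {m d : ℕ} (A : Frame m) (B : Frame (m + d)) (h : B.1 = A.1) :
    Frame.proj B = GK.reindex finSumFinEquiv (GK.sum (Frame.proj A, GK.base (Fin d))) := by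
  have hA := A.2.1
  refine Subtype.ext ?_
  have key : ∀ x y : (Fin m ⊕ Fin d) × Bool,
      (Frame.proj B).1 (finSumFinEquiv x.1, x.2) (finSumFinEquiv y.1, y.2) =
      sumFun (Frame.proj A).1 (GK.base (Fin d)).1 x y := by
    have hlow : ∀ (i : Fin m) (b : Bool) (c : ℕ), c < d →
        A.1 (2 * (i : ℕ) + (if b then 0 else 1)) (m + c) = 0 := by
      intro i b c hc
      rw [hA _ _ (Or.inr (Nat.le_add_right _ _)), if_neg]
      have := i.2
      split_ifs <;> omega
    have hhigh : ∀ (i : Fin d) (b : Bool) (c : ℕ), c < m →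
        A.1 (2 * (m + (i : ℕ)) + (if b then 0 else 1)) c = 0 := by
      intro i b c hc
      rw [hA _ _ (Or.inl (by split_ifs <;> omega)), if_neg]
      split_ifs <;> omega
    have hdiag : ∀ (i : Fin d) (b : Bool) (c : ℕ),
        A.1 (2 * (m + (i : ℕ)) + (if b then 0 else 1)) (m + c) =
          if (i : ℕ) = c ∧ b = true then 1 else 0 := by
      intro i b c
      rw [hA _ _ (Or.inr (Nat.le_add_right _ _))]
      by_cases hb : b = true
      · subst hb
        by_cases hc : (i : ℕ) = c
        · rw [if_pos, if_pos ⟨hc, rfl⟩]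
          simp only [if_true]
          omega
        · rw [if_neg, if_neg (fun h => hc h.1)]
          simp only [if_true]
          omega
      · rw [if_neg, if_neg (fun h => hb h.2)]
        rw [if_neg hb]
        omega
    rintro ⟨i | i, b⟩ ⟨j | j, c⟩
    · show ∑ t ∈ Finset.range (m + d), B.1 (2 * ((Fin.castAdd d i : Fin (m + d)) : ℕ) + _) t *
        star (B.1 (2 * ((Fin.castAdd d j : Fin (m + d)) : ℕ) + _) t) =
        ∑ t ∈ Finset.range m, A.1 (2 * (i : ℕ) + _) t * star (A.1 (2 * (j : ℕ) + _) t)
      rw [h, Fin.val_castAdd, Fin.val_castAdd, Finset.sum_range_add, Finset.sum_eq_zero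
        (s := Finset.range d), add_zero]
      intro t ht
      rw [hlow i b t (Finset.mem_range.1 ht), zero_mul]
    · show ∑ t ∈ Finset.range (m + d), B.1 (2 * ((Fin.castAdd d i : Fin (m + d)) : ℕ) + _) t *
        star (B.1 (2 * ((Fin.natAdd m j : Fin (m + d)) : ℕ) + _) t) = 0
      rw [h, Fin.val_castAdd, Fin.val_natAdd, Finset.sum_range_add, Finset.sum_eq_zero
        (s := Finset.range d), add_zero, Finset.sum_eq_zero]
      · intro t ht
        rw [hhigh j c t (Finset.mem_range.1 ht), star_zero, mul_zero]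
      · intro t ht
        rw [hlow i b t (Finset.mem_range.1 ht), zero_mul]
    · show ∑ t ∈ Finset.range (m + d), B.1 (2 * ((Fin.natAdd m i : Fin (m + d)) : ℕ) + _) t *
        star (B.1 (2 * ((Fin.castAdd d j : Fin (m + d)) : ℕ) + _) t) = 0
      rw [h, Fin.val_castAdd, Fin.val_natAdd, Finset.sum_range_add, Finset.sum_eq_zero
        (s := Finset.range d), add_zero, Finset.sum_eq_zero]
      · intro t ht
        rw [hhigh i b t (Finset.mem_range.1 ht), zero_mul]
      · intro t ht
        rw [hlow j c t (Finset.mem_range.1 ht), star_zero, mul_zero]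
    · show ∑ t ∈ Finset.range (m + d), B.1 (2 * ((Fin.natAdd m i : Fin (m + d)) : ℕ) + _) t *
        star (B.1 (2 * ((Fin.natAdd m j : Fin (m + d)) : ℕ) + _) t) =
        (GK.base (Fin d)).1 (i, b) (j, c)
      rw [h, Fin.val_natAdd, Fin.val_natAdd, Finset.sum_range_add, Finset.sum_eq_zero
        (s := Finset.range m), zero_add]
      · simp only [hdiag]
        rw [Finset.sum_eq_single (i : ℕ)]
        · by_cases hb : b = true
          · by_cases hij : ((i, b) : Fin d × Bool) = (j, c)
            · rw [if_pos ⟨rfl, hb⟩, if_pos, base_one ⟨hij, hb⟩, star_one, mul_one]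
              have h1 := congrArg Prod.fst hij
              have h2 := congrArg Prod.snd hij
              simp only at h1 h2
              exact ⟨by rw [h1], by rw [← h2]; exact hb⟩
            · rw [base_zero (fun h' => hij h'.1), if_neg (c := (j : ℕ) = (i : ℕ) ∧ c = true),
                star_zero, mul_zero]
              rintro ⟨h1, h2⟩
              exact hij (Prod.ext (Fin.ext h1.symm) (by rw [hb, h2]))
          · rw [if_neg (fun h' => hb h'.2), zero_mul, base_zero (fun h' => hb h'.2)]
        · intro t _ ht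
          rw [if_neg (fun h' => ht h'.1.symm), zero_mul]
        · intro h'
          exact absurd (Finset.mem_range.2 i.2) h'
      · intro t ht
        rw [hhigh i b t (Finset.mem_range.1 ht), zero_mul]
  ext x y
  have hk := key (finSumFinEquiv.symm x.1, x.2) (finSumFinEquiv.symm y.1, y.2)
  simp only [Equiv.apply_symm_apply] at hk
  exact hk

theorem grH_nxD {m : ℕ} (d : ℕ) (x : Gr Set.univ m) :
    grH (m + d) (nxD m d x) = GK.reindex finSumFinEquiv (GK.sum (grH m x, GK.base (Fin d))) := by
  induction x using Quot.ind with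
  | mk A =>
    obtain ⟨B, hB, hn⟩ := nxD_frame A d
    rw [hn]
    exact proj_larger A B hB

theorem rMap_stab {κ l : Type} [Fintype κ] [Fintype l] {m n : ℕ} (e : κ ≃ Fin m)
    (e' : κ ⊕ l ≃ Fin n) (V : DetVec m) (W : DetVec n) :
    ((rMap e' W).comp (stC κ l)).Homotopic (rMap e V) := by
  set d := Fintype.card l
  let e2 : κ ⊕ l ≃ Fin (m + d) := (Equiv.sumCongr e (Fintype.equivFin l)).trans finSumFinEquiv
  obtain ⟨U⟩ := exists_detVec (m + d)
  have h1 : ((rMap e' W).comp (stC κ l)).Homotopic ((rMap e2 U).comp (stC κ l)) :=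
    (rMap_homotopic e' e2 W U).comp (ContinuousMap.Homotopic.refl _)
  have h2 : (rMap e2 U).comp (stC κ l) =
      ((U.r.comp (nxD m d)).comp ⟨(grH m).symm, (grH m).symm.continuous⟩).comp (reC e) := by
    ext P
    show U.r ((grH (m + d)).symm (GK.reindex e2 (GK.sum (P, GK.base l)))) =
      U.r (nxD m d ((grH m).symm (GK.reindex e P)))
    congr 1
    rw [Homeomorph.symm_apply_eq, grH_nxD, Homeomorph.apply_symm_apply]
    refine Subtype.ext ?_
    have key : ∀ x y : (Fin m ⊕ Fin d) × Bool,
        sumFun P.1 (GK.base l).1 ((Equiv.sumCongr e (Fintype.equivFin l)).symm x.1, x.2)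
          ((Equiv.sumCongr e (Fintype.equivFin l)).symm y.1, y.2) =
        sumFun (GK.reindex e P).1 (GK.base (Fin d)).1 x y := by
      rintro ⟨i | i, b⟩ ⟨j | j, c⟩
      · rfl
      · rfl
      · rfl
      · show (GK.base l).1 ((Fintype.equivFin l).symm i, b) ((Fintype.equivFin l).symm j, c) =
          (GK.base (Fin d)).1 (i, b) (j, c)
        have h3 : (((Fintype.equivFin l).symm i, b) : l × Bool) =
            ((Fintype.equivFin l).symm j, c) ↔ ((i, b) : Fin d × Bool) = (j, c) := by
          rw [Prod.mk.injEq, Prod.mk.injEq, EmbeddingLike.apply_eq_iff_eq]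
        by_cases h4 : ((i, b) : Fin d × Bool) = (j, c) ∧ b = true
        · rw [base_one h4, base_one ⟨h3.2 h4.1, h4.2⟩]
        · rw [base_zero h4, base_zero (fun h5 => h4 ⟨h3.1 h5.1, h5.2⟩)]
    ext x y
    exact key (finSumFinEquiv.symm x.1, x.2) (finSumFinEquiv.symm y.1, y.2)
  rw [h2] at h1
  exact h1.trans (((r_nxD V d U).comp (ContinuousMap.Homotopic.refl _)).comp
    (ContinuousMap.Homotopic.refl _))

/-- the base point goes to the base point up to a path -/
theorem rMap_base {κ : Type} [Fintype κ] {n : ℕ} (e : κ ≃ Fin n) (V : DetVec n) :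
    (ContinuousMap.const PUnit (rMap e V (GK.base κ))).Homotopic
      (ContinuousMap.const PUnit (toBG {1} n (Gr.pt {1} n))) := by
  have h1 : rMap e V (GK.base κ) = V.r (Gr.toU (Gr.pt {1} n)) := by
    show V.r ((grH n).symm (GK.reindex e (GK.base κ))) = V.r (Gr.pt Set.univ n)
    congr 1
    rw [Homeomorph.symm_apply_eq, grH_apply, Gr.toGK_pt]
    refine Subtype.ext ?_
    ext x y
    show (GK.base κ).1 (e.symm x.1, x.2) (e.symm y.1, y.2) = (GK.base (Fin n)).1 x y
    have h3 : ((e.symm x.1, x.2) : κ × Bool) = (e.symm y.1, y.2) ↔ x = y := by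
      rw [Prod.mk.injEq, EmbeddingLike.apply_eq_iff_eq, Prod.ext_iff]
    by_cases h4 : x = y ∧ x.2 = true
    · rw [base_one h4, base_one ⟨h3.2 h4.1, h4.2⟩]
    · rw [base_zero h4, base_zero (fun h5 => h4 ⟨h3.1 h5.1, h5.2⟩)]
  rw [h1]
  have h2 := (DetVec.r_toU V).comp
    (ContinuousMap.Homotopic.refl (ContinuousMap.const PUnit (Gr.pt {1} n)))
  exact h2

end Pool.Agent.Helper74.Stab
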