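import Pool.Agent.Helper1.Stab.Thom
import Pool.Agent.Helper63.Stab.CalA

/-! Powers of the orientation class: naturality, order of the factors, vanishing beyond the
dimension. -/

open Topology Filter Set Matrix

noncomputable section

namespace Pool.Agent.Helper74.Stab

open Pool.Agent.Helper1.Stab Pool.Agent.Helper63.Stab

variable {R : Biv}

/-! ## Additivity -/

theorem zero_comp {K L M : LC} (y : R.Hom L M) : R.comp (0 : R.Hom K L) y = 0 := by
  have h := R.add_comp (0 : R.Hom K L) 0 y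
  rw [add_zero] at h
  exact left_eq_add.1 h

theorem comp_zero {K L M : LC} (x : R.Hom K L) : R.comp x (0 : R.Hom L M) = 0 := by
  have h := R.comp_add x (0 : R.Hom L M) 0
  rw [add_zero] at h
  exact left_eq_add.1 h

theorem neg_comp {K L M : LC} (x : R.Hom K L) (y : R.Hom L M) :
    R.comp (-x) y = - R.comp x y := by
  have h := R.add_comp x (-x) y
  rw [add_neg_cancel, zero_comp] at h
  exact (neg_eq_of_add_eq_zero_right h.symm).symm

theorem sub_comp {K L M : LC} (x x' : R.Hom K L) (y : R.Hom L M) :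
    R.comp (x - x') y = R.comp x y - R.comp x' y := by
  rw [sub_eq_add_neg, R.add_comp, neg_comp, ← sub_eq_add_neg]

theorem tens_zero {K L : LC} (Z : LC) : R.tens (0 : R.Hom K L) Z = 0 := by
  have h := R.tens_add (0 : R.Hom K L) 0 Z
  rw [add_zero] at h
  exact left_eq_add.1 h

theorem comp_sum {ι : Type} (s : Finset ι) {K L M : LC} (x : R.Hom K L) (y : ι → R.Hom L M) :
    R.comp x (∑ i ∈ s, y i) = ∑ i ∈ s, R.comp x (y i) := by
  classical
  induction s using Finset.induction_on with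
  | empty => simp only [Finset.sum_empty]; exact comp_zero x
  | insert a s ha ih => rw [Finset.sum_insert ha, Finset.sum_insert ha, R.comp_add, ih]

theorem sum_comp {ι : Type} (s : Finset ι) {K L M : LC} (x : ι → R.Hom K L) (y : R.Hom L M) :
    R.comp (∑ i ∈ s, x i) y = ∑ i ∈ s, R.comp (x i) y := by
  classical
  induction s using Finset.induction_on with
  | empty => simp only [Finset.sum_empty]; exact zero_comp y
  | insert a s ha ih => rw [Finset.sum_insert ha, Finset.sum_insert ha, R.add_comp, ih]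

theorem tens_sum {ι : Type} (s : Finset ι) {K L : LC} (x : ι → R.Hom K L) (Z : LC) :
    R.tens (∑ i ∈ s, x i) Z = ∑ i ∈ s, R.tens (x i) Z := by
  classical
  induction s using Finset.induction_on with
  | empty => simp only [Finset.sum_empty]; exact tens_zero Z
  | insert a s ha ih => rw [Finset.sum_insert ha, Finset.sum_insert ha, R.tens_add, ih]

/-- every class on an empty space is zero -/
theorem hom_isEmpty {K L : LC} (h : IsEmpty K) (x : R.Hom K L) : x = 0 := by
  have e : PMap.id K = PMap.zero K K.plus := by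
    ext k
    exact h.elim k
  rw [← R.id_comp x, e, R.J_zero, zero_comp]

/-! ## Reordering -/

/-- `(A × B) × Z = (A × Z) × B` -/
def rr (A B Z : LC) : (A.prod B).prod Z ≃ₜ (A.prod Z).prod B where
  toFun v := ((v.1.1, v.2), v.1.2)
  invFun v := ((v.1.1, v.2), v.1.2)
  left_inv _ := rfl
  right_inv _ := rfl
  continuous_toFun := by fun_prop
  continuous_invFun := by fun_prop

/-- `(A × B) × Z = A × (Z × B)` -/
def pm (A B Z : LC) : (A.prod B).prod Z ≃ₜ A.prod (Z.prod B) where
  toFun v := (v.1.1, (v.2, v.1.2))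
  invFun v := ((v.1, v.2.2), v.2.1)
  left_inv _ := rfl
  right_inv _ := rfl
  continuous_toFun := by fun_prop
  continuous_invFun := by fun_prop

/-- a class in the middle position -/
theorem tens_ltens_rr (X Z : LC) {K L : LC} (u : R.Hom K L) :
    R.comp (R.tens (R.ltens X u) Z) (jh R (rr X L Z)) =
      R.comp (jh R (rr X K Z)) (R.ltens (X.prod Z) u) := by
  rw [ltens_eq_pl u X, tens_pl, ltens_eq_pl]
  exact (pl_comm u (Homeomorph.refl (X.prod Z)) (rp Z (LC.swap X K)) (rp Z (LC.swap X L))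
    (LC.swap (X.prod Z) K) (LC.swap (X.prod Z) L) (rr X K Z) (rr X L Z)
    (fun _ => rfl) (fun _ => rfl)).symm

/-- permutation of two spectators -/
theorem tens_tens_rr {K L : LC} (x : R.Hom K L) (Z W : LC) :
    R.comp (R.tens (R.tens x Z) W) (jh R (rr L Z W)) =
      R.comp (jh R (rr K Z W)) (R.tens (R.tens x W) Z) := by
  rw [tens_tens_eq_pl, tens_tens_eq_pl]
  exact (pl_comm x (LC.swap Z W) _ _ _ _ (rr K Z W) (rr L Z W)
    (fun _ => rfl) (fun _ => rfl)).symm

/-- permutation and association of two spectators -/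
theorem tens_tens_pm {K L : LC} (x : R.Hom K L) (Z W : LC) :
    R.comp (R.tens (R.tens x Z) W) (jh R (pm L Z W)) =
      R.comp (jh R (pm K Z W)) (R.tens x (W.prod Z)) := by
  rw [tens_tens_eq_pl, tens_eq_pl]
  exact (pl_comm x (LC.swap Z W) _ _ _ _ (pm K Z W) (pm L Z W)
    (fun _ => rfl) (fun _ => rfl)).symm

/-- `(X × ℂ) × ℂ^i = X × ℂ^(i+1)` -/
def pmC (X : LC) (i : ℕ) : (X.prod LC.C).prod (Cn i) ≃ₜ X.prod (Cn (i + 1)) := pm X LC.C (Cn i)

/-- `(X × ℂ^k) × ℂ = X × ℂ^(k+1)` -/
def asC (X : LC) (k : ℕ) : (X.prod (Cn k)).prod LC.C ≃ₜ X.prod (Cn (k + 1)) :=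
  Homeomorph.prodAssoc X (Cn k) LC.C

/-- `X = X × ℂ^0` -/
def uC (X : LC) : X ≃ₜ X.prod (Cn 0) := (Homeomorph.prodPUnit X).symm

theorem tens_pmC {K L : LC} (x : R.Hom K L) (i : ℕ) :
    R.comp (R.tens (R.tens x LC.C) (Cn i)) (jh R (pmC L i)) =
      R.comp (jh R (pmC K i)) (R.tens x (Cn (i + 1))) := tens_tens_pm x LC.C (Cn i)

theorem tens_asC {K L : LC} (x : R.Hom K L) (k : ℕ) :
    R.comp (R.tens (R.tens x (Cn k)) LC.C) (jh R (asC L k)) =
      R.comp (jh R (asC K k)) (R.tens x (Cn (k + 1))) := R.tens_tens x (Cn k) LC.C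

theorem tens_uC {K L : LC} (x : R.Hom K L) :
    R.comp x (jh R (uC L)) = R.comp (jh R (uC K)) (R.tens x (Cn 0)) := by
  have h1 : R.comp (R.tens x (Cn 0)) (jh R (uC L).symm) = R.comp (jh R (uC K).symm) x :=
    R.tens_point x
  have h2 : R.comp (jh R (uC K)) (R.comp (R.tens x (Cn 0)) (jh R (uC L).symm)) = x := by
    rw [h1, jh_comp_symm]
  conv_lhs => rw [← h2]
  rw [R.assoc, R.assoc, jh_symm_comp', R.comp_id]

/-! ## Powers of an operator -/

/-- the powers of an operator `X → X × ℂ` -/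
def pw {X : LC} (t : R.Hom X (X.prod LC.C)) : ∀ i : ℕ, R.Hom X (X.prod (Cn i))
  | 0 => jh R (uC X)
  | i + 1 => R.comp (pw t i) (R.comp (R.tens t (Cn i)) (jh R (pmC X i)))

theorem pw_zero {X : LC} (t : R.Hom X (X.prod LC.C)) : pw t 0 = jh R (uC X) := rfl

theorem pw_succ {X : LC} (t : R.Hom X (X.prod LC.C)) (i : ℕ) :
    pw t (i + 1) = R.comp (pw t i) (R.comp (R.tens t (Cn i)) (jh R (pmC X i))) := rfl

theorem Epow_eq_pw (o : Orient R) {X : LC} {S : Type} [Fintype S] (l : X → Pr S 1)
    (hl : Continuous l) (i : ℕ) : o.Epow l hl i = pw (o.E l hl) i := by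
  induction i with
  | zero => rfl
  | succ i ih =>
    rw [pw_succ, ← ih]
    rfl

/-- powers vanish from the first zero on -/
theorem pw_zero_le {X : LC} (t : R.Hom X (X.prod LC.C)) {i j : ℕ} (h : i ≤ j) (h0 : pw t i = 0) :
    pw t j = 0 := by
  induction j, h using Nat.le_induction with
  | base => exact h0
  | succ j _ ih => rw [pw_succ, ih, zero_comp]

/-- naturality -/
theorem pw_natural {X Y : LC} (φ : R.Hom Y X) (t : R.Hom X (X.prod LC.C))
    (t' : R.Hom Y (Y.prod LC.C)) (h : R.comp φ t = R.comp t' (R.tens φ LC.C)) (i : ℕ) :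
    R.comp φ (pw t i) = R.comp (pw t' i) (R.tens φ (Cn i)) := by
  induction i with
  | zero => exact tens_uC φ
  | succ i ih =>
    have h1 : R.comp (R.tens φ (Cn i)) (R.tens t (Cn i)) =
        R.comp (R.tens t' (Cn i)) (R.tens (R.tens φ LC.C) (Cn i)) := by
      rw [← R.tens_comp, ← R.tens_comp, h]
    rw [pw_succ, pw_succ, ← R.assoc, ih, R.assoc, ← R.assoc (R.tens φ (Cn i)), h1, R.assoc,
      tens_pmC, R.assoc, R.assoc]

/-- the operator is symmetric -/
def Sym {X : LC} (t : R.Hom X (X.prod LC.C)) : Prop :=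
  R.comp t (R.comp (R.tens t LC.C) (jh R (rr X LC.C LC.C))) = R.comp t (R.tens t LC.C)

/-- the first factor can be split off at the last position -/
theorem pw_succ' {X : LC} (t : R.Hom X (X.prod LC.C)) (ht : Sym t) (k : ℕ) :
    pw t (k + 1) = R.comp t (R.comp (R.tens (pw t k) LC.C) (jh R (asC X k))) := by
  induction k with
  | zero =>
    have e1 : R.comp (jh R (uC X)) (R.tens t (Cn 0)) = R.comp t (jh R (uC (X.prod LC.C))) :=
      (tens_uC t).symm
    rw [pw_succ, pw_zero, ← R.assoc, e1, R.assoc, tens_jh, ← jh_trans, ← jh_trans]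
    congr 1
  | succ k ih =>
    -- the left side
    have a2 : R.comp (pw t k) (R.tens t (Cn k)) =
        R.comp (pw t (k + 1)) (jh R (pmC X k).symm) := by
      rw [pw_succ, R.assoc, R.assoc, jh_comp_symm', R.comp_id]
    have a3 : pw t (k + 2) = R.comp t (R.comp (R.tens (R.comp (pw t k) (R.tens t (Cn k))) LC.C)
        (R.comp (jh R (asC (X.prod LC.C) k)) (jh R (pmC X (k + 1))))) := by
      rw [pw_succ t (k + 1), ih, R.tens_comp]
      simp only [R.assoc]
      rw [← R.assoc (jh R (asC X k)), ← tens_asC]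
      simp only [R.assoc]
    -- permutation of the two coordinates
    have b1 : R.comp (R.tens (R.tens (pw t k) LC.C) LC.C) (jh R (rr (X.prod (Cn k)) LC.C LC.C)) =
        R.comp (jh R (rr X LC.C LC.C)) (R.tens (R.tens (pw t k) LC.C) LC.C) :=
      tens_tens_rr (pw t k) LC.C LC.C
    have c1 : R.tens (pw t (k + 1)) LC.C = R.comp (R.tens t LC.C)
        (R.comp (R.tens (R.tens (pw t k) LC.C) LC.C) (R.tens (jh R (asC X k)) LC.C)) := by
      rw [ih, R.tens_comp, R.tens_comp]
    have c2 : ∀ {Z : LC} (y : R.Hom ((X.prod LC.C).prod LC.C) Z),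
        R.comp t (R.comp (R.tens t LC.C) (R.comp (jh R (rr X LC.C LC.C)) y)) =
        R.comp t (R.comp (R.tens t LC.C) y) := by
      intro Z y
      rw [← R.assoc (R.tens t LC.C) (jh R _), ← R.assoc t, ht, R.assoc]
    rw [a3, a2, R.tens_comp, c1]
    simp only [R.assoc]
    rw [← c2]
    congr 2
    rw [← R.assoc (jh R (rr X LC.C LC.C)), ← b1, R.assoc]
    congr 1
    rw [tens_jh, tens_jh, ← jh_trans, ← jh_trans, ← jh_trans, ← jh_trans, ← jh_trans]
    exact jh_congr R fun _ => rfl

end Pool.Agent.Helper74.Stab
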