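import Pool.Agent.Helper74.Stab.Dual

/-! The operator of a line bundle: symmetry, products, vanishing of powers. -/

open Topology Filter Set Matrix

noncomputable section

namespace Pool.Agent.Helper74.Stab

open Pool.Agent.Helper1.Stab Pool.Agent.Helper63.Stab

variable {R : Biv} (o : Orient R)

/-! ## Symmetry -/

theorem ltens_comm {X : LC} {K L : LC} (u : R.Hom K L) :
    R.comp (R.comp (R.ltens (X.prod K) u) (R.tens (R.ltens X u) L)) (jh R (rr X L L)) =
      R.comp (jh R (rr X K K)) (R.comp (R.ltens (X.prod K) u) (R.tens (R.ltens X u) L)) := by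
  have h1 : R.comp (R.tens (R.ltens X u) L) (jh R (rr X L L)) =
      R.comp (jh R (rr X K L)) (R.ltens (X.prod L) u) := tens_ltens_rr X L u
  have h2 : R.comp (R.tens (R.ltens X u) K) (jh R (rr X L K)) =
      R.comp (jh R (rr X K K)) (R.ltens (X.prod K) u) := tens_ltens_rr X K u
  have h3 : R.comp (R.ltens (X.prod K) u) (jh R (rr X K L)) =
      R.comp (jh R (rr X K K)) (R.tens (R.ltens X u) K) := by
    have e1 : R.ltens (X.prod K) u = R.comp (jh R (rr X K K)) (R.comp (R.tens (R.ltens X u) K)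
        (jh R (rr X L K))) := by
      rw [h2]
      exact (jh_comp_symm R (rr X K K) _).symm
    rw [e1, R.assoc, R.assoc]
    have e2 : R.comp (jh R (rr X L K)) (jh R (rr X K L)) = R.J (PMap.id _) :=
      jh_comp_symm' R (rr X L K)
    rw [e2, R.comp_id]
  have h4 : R.comp (R.tens (R.ltens X u) K) (R.ltens (X.prod L) u) =
      R.comp (R.ltens (X.prod K) u) (R.tens (R.ltens X u) L) := R.exch (R.ltens X u) u
  rw [R.assoc, h1, ← R.assoc, h3, R.assoc, h4]

theorem E_def {X : LC} {S : Type} [Fintype S] (l : X → Pr S 1) (hl : Continuous l) :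
    o.E l hl = R.comp (R.J (graph (L := LC.Pr S 1) l hl)) (R.ltens X (o.u S)) := rfl

theorem E_sq {X : LC} {S : Type} [Fintype S] (l : X → Pr S 1) (hl : Continuous l) :
    R.comp (o.E l hl) (R.tens (o.E l hl) LC.C) =
      R.comp (R.J (graph (L := LC.Pr S 1) l hl))
        (R.comp (R.tens (R.J (graph (L := LC.Pr S 1) l hl)) (LC.Pr S 1))
          (R.comp (R.ltens (X.prod (LC.Pr S 1)) (o.u S)) (R.tens (R.ltens X (o.u S)) LC.C))) := by
  have h1 : R.comp (R.tens (R.J (graph (L := LC.Pr S 1) l hl)) (LC.Pr S 1))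
      (R.ltens (X.prod (LC.Pr S 1)) (o.u S)) = R.comp (R.ltens X (o.u S))
        (R.tens (R.J (graph (L := LC.Pr S 1) l hl)) LC.C) := R.exch _ (o.u S)
  rw [E_def, R.tens_comp, R.assoc, ← R.assoc (R.ltens X (o.u S)), ← h1, R.assoc]

theorem sym_E {X : LC} {S : Type} [Fintype S] (l : X → Pr S 1) (hl : Continuous l) :
    Sym (o.E l hl) := by
  have h2 : R.comp (R.J (graph (L := LC.Pr S 1) l hl))
      (R.comp (R.tens (R.J (graph (L := LC.Pr S 1) l hl)) (LC.Pr S 1))
        (jh R (rr X (LC.Pr S 1) (LC.Pr S 1)))) = R.comp (R.J (graph (L := LC.Pr S 1) l hl))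
      (R.tens (R.J (graph (L := LC.Pr S 1) l hl)) (LC.Pr S 1)) := by
    rw [jh, R.tens_J, ← R.J_comp, ← R.J_comp, ← R.J_comp]
    congr 1
  unfold Sym
  rw [← R.assoc, E_sq]
  simp only [R.assoc]
  rw [← R.assoc (R.ltens _ _), ltens_comm, ← R.assoc (R.tens (R.J _) _) (jh R _), ← R.assoc (R.J _),
    h2, R.assoc]

/-! ## Products with a space -/

theorem tens_E {X : LC} {S : Type} [Fintype S] (l : X → Pr S 1) (hl : Continuous l) (Z : LC) :
    R.comp (R.tens (o.E l hl) Z) (jh R (rr X LC.C Z)) =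
      o.E (X := X.prod Z) (fun x => l x.1) (hl.comp continuous_fst) := by
  have h2 : R.comp (R.tens (R.J (graph (L := LC.Pr S 1) l hl)) Z)
      (jh R (rr X (LC.Pr S 1) Z)) = R.J (graph (X := X.prod Z) (L := LC.Pr S 1)
        (fun x => l x.1) (hl.comp continuous_fst)) := by
    rw [jh, R.tens_J, ← R.J_comp]
    congr 1
  rw [E_def, E_def, R.tens_comp, R.assoc, tens_ltens_rr, ← R.assoc, h2]

theorem tens_pw {X : LC} (t : R.Hom X (X.prod LC.C)) (Z : LC) (i : ℕ) :
    R.comp (R.tens (pw t i) Z) (jh R (rr X (Cn i) Z)) =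
      pw (R.comp (R.tens t Z) (jh R (rr X LC.C Z))) i := by
  induction i with
  | zero =>
    rw [pw_zero, pw_zero, tens_jh, ← jh_trans]
    exact jh_congr R fun _ => rfl
  | succ i ih =>
    have h1 : R.comp (R.tens (R.tens t (Cn i)) Z) (jh R (rr (X.prod LC.C) (Cn i) Z)) =
        R.comp (jh R (rr X (Cn i) Z)) (R.tens (R.tens t Z) (Cn i)) := tens_tens_rr t (Cn i) Z
    have h2 : R.tens (R.tens t (Cn i)) Z = R.comp (jh R (rr X (Cn i) Z))
        (R.comp (R.tens (R.tens t Z) (Cn i)) (jh R (rr (X.prod LC.C) (Cn i) Z).symm)) := by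
      rw [← R.assoc, ← h1, R.assoc, jh_comp_symm', R.comp_id]
    rw [pw_succ, pw_succ, ← ih, R.tens_comp, R.tens_comp, h2, R.tens_comp, tens_jh, tens_jh]
    simp only [R.assoc]
    congr 3
    rw [← jh_trans, ← jh_trans, ← jh_trans]
    exact jh_congr R fun _ => rfl

/-! ## Vanishing -/

/-- column of a projection of rank one -/
theorem rank_one {S : Type} [Fintype S] (P : Pr S 1) (i j n : S) :
    P.1 i n * P.1 n j = P.1 n n * P.1 i j := by
  have hh : ∀ i j, star (P.1 i j) = P.1 j i := fun i j => by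
    have h := congrFun (congrFun P.2.1 j) i
    rw [← h, conjTranspose_apply]
  have hv : P.1 *ᵥ (fun s => P.1 s n) = fun s => P.1 s n := by
    funext s
    exact congrFun (congrFun P.2.2.1 s) n
  have h1 := thomA69 P (fun s => P.1 s n) hv i j
  have h2 : ((∑ s, ‖P.1 s n‖ ^ 2 : ℝ) : ℂ) = P.1 n n := by
    have h3 := congrFun (congrFun P.2.2.1 n) n
    rw [mul_apply] at h3
    rw [← h3, Complex.ofReal_sum]
    refine Finset.sum_congr rfl fun s _ => ?_
    rw [← hh s n, Complex.ofReal_pow]
    exact (Complex.conj_mul' _).symm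
  simp only [hh] at h1
  rw [h1, h2]

section proj
variable {S : Type} [Fintype S]

/-- the complement of the last coordinate line -/
abbrev Q (S : Type) [Fintype S] : LC := (LC.Pr (Option S) 1).minus (Pr.line none)

theorem Q_val (P : Q S) : P.1.1 none none = ((P.1.1 none none).re : ℂ) :=
  (Orient.projIv_real P.1).symm

theorem Q_pos (P : Q S) : 0 < 1 - (P.1.1 none none).re := by
  have h1 := Orient.projIv_sum P.1
  have h2 := Orient.projIv_ne P.1 P.2
  rw [Q_val P] at h1 h2
  have h3 : (∑ s : S, ‖P.1.1 (some s) none‖ ^ 2 : ℝ) =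
      (P.1.1 none none).re * (1 - (P.1.1 none none).re) := by exact_mod_cast h1
  have h4 : (0 : ℝ) ≤ ∑ s : S, ‖P.1.1 (some s) none‖ ^ 2 := by positivity
  have h5 : (1 : ℝ) - (P.1.1 none none).re ≠ 0 := by exact_mod_cast h2
  by_contra h
  have h6 : 1 - (P.1.1 none none).re < 0 := lt_of_le_of_ne (not_lt.1 h) h5
  nlinarith

/-- the projection from the last coordinate line -/
def prj (P : Q S) : Pr S 1 :=
  ⟨fun i j => ((1 - (P.1.1 none none).re : ℝ) : ℂ)⁻¹ * P.1.1 (some i) (some j), by
    have hp := Q_pos P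
    have hc : ((1 - (P.1.1 none none).re : ℝ) : ℂ) ≠ 0 := by exact_mod_cast hp.ne'
    have hn : P.1.1 none none = 1 - ((1 - (P.1.1 none none).re : ℝ) : ℂ) := by
      rw [Complex.ofReal_sub, ← Q_val P]
      push_cast
      ring
    obtain ⟨c, hcd⟩ : ∃ c : ℝ, c = 1 - (P.1.1 none none).re := ⟨_, rfl⟩
    rw [← hcd] at hc hn ⊢
    refine ⟨?_, ?_, ?_⟩
    · ext i j
      rw [conjTranspose_apply]
      change star ((c : ℂ)⁻¹ * P.1.1 (some j) (some i)) = (c : ℂ)⁻¹ * P.1.1 (some i) (some j)
      rw [star_mul', star_inv₀, ← Orient.projIv_herm]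
      congr 2
      exact Complex.conj_ofReal c
    · ext i j
      rw [mul_apply]
      have h1 := Orient.projIv_mul P.1 (some i) (some j)
      have h2 := rank_one P.1 (some i) (some j) none
      have h3 : ∀ s : S, (c : ℂ)⁻¹ * P.1.1 (some i) (some s) * ((c : ℂ)⁻¹ * P.1.1 (some s) (some j))
          = (c : ℂ)⁻¹ ^ 2 * (P.1.1 (some i) (some s) * P.1.1 (some s) (some j)) := fun s => by ring
      simp only [h3]
      rw [← Finset.mul_sum]
      have h4 : ∑ s : S, P.1.1 (some i) (some s) * P.1.1 (some s) (some j) =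
          c * P.1.1 (some i) (some j) := by
        rw [h2, hn] at h1
        linear_combination h1
      rw [h4]
      field_simp
    · rw [trace]
      have h1 := P.1.2.2.2
      rw [trace, Fintype.sum_option] at h1
      simp only [diag_apply] at h1 ⊢
      rw [← Finset.mul_sum]
      have h2 : ∑ s : S, P.1.1 (some s) (some s) = c := by
        rw [hn] at h1
        push_cast at h1
        linear_combination h1
      rw [h2, inv_mul_cancel₀ hc]
      simp⟩

theorem continuous_Qval : Continuous fun P : Q S => (P.1.1 : Matrix (Option S) (Option S) ℂ) := by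
  have hc1 : Continuous fun P : (LC.Pr (Option S) 1).minus (Pr.line none) =>
      (P.1 : Pr (Option S) 1) := continuous_subtype_val
        (p := fun P : Pr (Option S) 1 => P ∈ ({Pr.line none}ᶜ : Set (Pr (Option S) 1)))
  have hc2 : Continuous fun P : Pr (Option S) 1 => (P.1 : Matrix (Option S) (Option S) ℂ) :=
    continuous_subtype_val
  exact hc2.comp hc1

theorem continuous_Qre : Continuous fun P : Q S => 1 - (P.1.1 none none).re :=
  continuous_const.sub (Complex.continuous_re.comp (continuous_Qval.matrix_elem none none))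

theorem continuous_prj : Continuous (prj (S := S)) := by
  refine Continuous.subtype_mk (continuous_matrix fun i j => ?_) _
  refine Continuous.mul (Continuous.inv₀ (Complex.continuous_ofReal.comp continuous_Qre)
    fun P => ?_) (continuous_Qval.matrix_elem _ _)
  exact_mod_cast (Q_pos P).ne'

/-- the partial isometry -/
def wm (c : ℝ) (P : Pr (Option S) 1) : Matrix S (Option S) ℂ :=
  fun s t => ((√c : ℝ) : ℂ)⁻¹ * P.1 (some s) t

theorem wm_left (c : ℝ) (P : Pr (Option S) 1) (hp : 0 < c) (hn : P.1 none none = 1 - (c : ℂ)) :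
    (wm c P)ᴴ * wm c P = P.1 := by
  have hc : (c : ℂ) ≠ 0 := by exact_mod_cast hp.ne'
  have hs : ((√c : ℝ) : ℂ)⁻¹ * ((√c : ℝ) : ℂ)⁻¹ = (c : ℂ)⁻¹ := by
    rw [← mul_inv, ← Complex.ofReal_mul, Real.mul_self_sqrt hp.le]
  ext i j
  rw [mul_apply]
  have h1 := Orient.projIv_mul P i j
  have h2 := rank_one P i j none
  have h3 : ∀ s : S, (wm c P)ᴴ i s * wm c P s j = (c : ℂ)⁻¹ * (P.1 i (some s) * P.1 (some s) j) := by
    intro s
    rw [conjTranspose_apply]
    change star (((√c : ℝ) : ℂ)⁻¹ * P.1 (some s) i) * (((√c : ℝ) : ℂ)⁻¹ * P.1 (some s) j) = _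
    rw [star_mul', star_inv₀, ← Orient.projIv_herm]
    have : star ((√c : ℝ) : ℂ) = ((√c : ℝ) : ℂ) := Complex.conj_ofReal _
    rw [this, ← hs]
    ring
  simp only [h3]
  rw [← Finset.mul_sum]
  have h4 : ∑ s : S, P.1 i (some s) * P.1 (some s) j = c * P.1 i j := by
    rw [h2, hn] at h1
    linear_combination h1
  rw [h4]
  field_simp

theorem wm_right (c : ℝ) (P : Pr (Option S) 1) (hp : 0 < c) :
    wm c P * (wm c P)ᴴ = fun i j => (c : ℂ)⁻¹ * P.1 (some i) (some j) := by
  have hs : ((√c : ℝ) : ℂ)⁻¹ * ((√c : ℝ) : ℂ)⁻¹ = (c : ℂ)⁻¹ := by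
    rw [← mul_inv, ← Complex.ofReal_mul, Real.mul_self_sqrt hp.le]
  ext i j
  rw [mul_apply]
  have h1 := congrFun (congrFun P.2.2.1 (some i)) (some j)
  rw [mul_apply] at h1
  rw [← h1, Finset.mul_sum]
  refine Finset.sum_congr rfl fun s _ => ?_
  rw [conjTranspose_apply]
  change ((√c : ℝ) : ℂ)⁻¹ * P.1 (some i) s * star (((√c : ℝ) : ℂ)⁻¹ * P.1 (some j) s) = _
  rw [star_mul', star_inv₀, ← Orient.projIv_herm]
  have : star ((√c : ℝ) : ℂ) = ((√c : ℝ) : ℂ) := Complex.conj_ofReal _
  rw [this, ← hs]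
  ring

/-- a line different from the last coordinate line is equivalent to its projection -/
theorem uequiv_prj {X : Type} [TopologicalSpace X] (q : X → Q S) (hq : Continuous q) :
    UEquiv (fun x => (q x).1) (fun x => prj (q x)) := by
  refine ⟨fun x => wm (1 - ((q x).1.1 none none).re) (q x).1, ?_, fun x => ?_, fun x => ?_⟩
  · refine continuous_matrix fun s t => Continuous.mul (Continuous.inv₀
      (Complex.continuous_ofReal.comp ((continuous_Qre.comp hq).sqrt)) fun x => ?_)
      ((continuous_Qval.comp hq).matrix_elem _ _)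
    have h1 := Real.sqrt_pos.2 (Q_pos (q x))
    exact_mod_cast h1.ne'
  · refine wm_left _ _ (Q_pos (q x)) ?_
    rw [Complex.ofReal_sub, ← Q_val (q x)]
    push_cast
    ring
  · exact wm_right _ _ (Q_pos (q x))

end proj

/-- the class of a line is the reduced class on the complement of the last coordinate line -/
theorem E_graph {X : LC} {S : Type} [Fintype S] (l : X → Pr (Option S) 1) (hl : Continuous l) :
    o.E l hl = R.comp (R.J ((PMap.ltens X ((LC.Pr (Option S) 1).coll (Pr.line none))).comp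
      (graph (L := LC.Pr (Option S) 1) l hl))) (R.ltens X (o.ured S)) := by
  rw [E_def, ← ThL.coll_ured, ltens_comp, Orient.pj_ltens_J, ← R.assoc, ← R.J_comp]

theorem vanish (S : Type) [Fintype S] : ∀ (X : LC) (l : X → Pr S 1) (hl : Continuous l),
    pw (o.E l hl) (Fintype.card S) = 0 := by
  refine Fintype.induction_empty_option (P := fun S _ => ∀ (X : LC) (l : X → Pr S 1)
    (hl : Continuous l), pw (o.E l hl) (Fintype.card S) = 0) ?_ ?_ ?_ S
  · intro α β _ e ih X l hl
    letI := Fintype.ofEquiv β e.symm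
    have h1 := ih X (fun x => Pr.ext e.symm.toEmbedding (l x))
      ((Pr.continuous_ext _).comp hl)
    have h2 : o.E (X := X) (fun x => Pr.ext e.symm.toEmbedding (l x))
      ((Pr.continuous_ext _).comp hl) = o.E l hl := o.pj_E_ext hl e.symm.toEmbedding _
    rw [h2, Fintype.card_congr e] at h1
    exact h1
  · intro X l hl
    refine hom_isEmpty ⟨fun x => ?_⟩ _
    have h := (l x).2.2.2
    simp [trace] at h
  · intro S _ ih X l hl
    rw [Fintype.card_option]
    obtain ⟨n, hn⟩ : ∃ n, n = Fintype.card S := ⟨_, rfl⟩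
    rw [← hn] at ih ⊢
    rw [pw_succ' _ (sym_E o l hl)]
    -- the partial map
    obtain ⟨φ, hφ⟩ : ∃ φ : PMap X (X.prod (Q S)).plus, φ =
      (PMap.ltens X ((LC.Pr (Option S) 1).coll (Pr.line none))).comp
      (graph (L := LC.Pr (Option S) 1) l hl) := ⟨_, rfl⟩
    have hval : ∀ (x : X) (y : X.prod (Q S)), φ x = ((y : X.prod (Q S)) : OnePoint (X.prod (Q S))) →
        y.1 = x ∧ y.2.1 = l x := by
      intro x y hy
      rw [hφ] at hy
      change smashPt X (Q S) ((x : OnePoint X), collapseFun ({Pr.line none}ᶜ :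
        Set (Pr (Option S) 1)) (l x)) = _ at hy
      by_cases h : l x ∈ ({Pr.line none}ᶜ : Set (Pr (Option S) 1))
      · rw [show collapseFun ({Pr.line none}ᶜ : Set (Pr (Option S) 1)) (l x) = _ from
          collapseFun_of_mem ⟨l x, h⟩] at hy
        have h2 : (((x, ⟨l x, h⟩) : X.prod (Q S)) : OnePoint (X.prod (Q S))) = y := hy
        have h3 := OnePoint.coe_injective h2
        rw [← h3]
        exact ⟨rfl, rfl⟩
      · rw [collapseFun_of_notMem h] at hy
        exact absurd hy (OnePoint.infty_ne_coe _)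
    have hE : o.E l hl = R.comp (R.J φ) (R.ltens X (o.ured S)) := by rw [hφ, ← E_graph]
    -- the two line bundles on `X × Q`
    let l1 : X.prod (Q S) → Pr (Option S) 1 := fun y => l y.1
    have hl1 : Continuous l1 := hl.comp continuous_fst
    let l2 : X.prod (Q S) → Pr (Option S) 1 := fun y => y.2.1
    have hl2 : Continuous l2 := (continuous_subtype_val
        (p := fun P : Pr (Option S) 1 => P ∈ ({Pr.line none}ᶜ : Set (Pr (Option S) 1)))).comp
          continuous_snd
    have n1 : R.comp (R.J φ) (o.E l1 hl1) = R.comp (o.E l hl) (R.tens (R.J φ) LC.C) :=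
      o.E_natural φ hl1 hl fun x y hy => by
        show l x = l y.1
        rw [(hval x y hy).1]
    have n2 : R.comp (R.J φ) (o.E l2 hl2) = R.comp (o.E l hl) (R.tens (R.J φ) LC.C) :=
      o.E_natural φ hl2 hl fun x y hy => (hval x y hy).2.symm
    have n3 : pw (o.E l2 hl2) n = 0 := by
      have hu : UEquiv l2 (fun y : X.prod (Q S) => prj y.2) :=
        uequiv_prj (fun y : X.prod (Q S) => y.2) continuous_snd
      have h := o.E_congr hl2 (m := fun y : X.prod (Q S) => prj y.2)
        (continuous_prj.comp continuous_snd) hu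
      rw [h]
      exact ih _ _ _
    have n4 : R.comp (R.J φ) (pw (o.E l1 hl1) n) = 0 := by
      rw [pw_natural _ _ _ n1 n, ← pw_natural _ _ _ n2 n, n3, comp_zero]
    have n5 : R.comp (R.tens (pw (o.E l hl) n) (Q S)) (jh R (rr X (Cn n) (Q S))) =
        pw (o.E l1 hl1) n := by
      rw [tens_pw, tens_E]
    have n6 : R.comp (R.J φ) (R.tens (pw (o.E l hl) n) (Q S)) = 0 := by
      have h := congrArg (fun z => R.comp z (jh R (rr X (Cn n) (Q S)).symm)) n4
      simp only [zero_comp] at h
      rw [← h, ← n5, R.assoc, R.assoc, jh_comp_symm', R.comp_id]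
    have n7 : R.comp (R.tens (pw (o.E l hl) n) (Q S)) (R.ltens (X.prod (Cn n)) (o.ured S)) =
        R.comp (R.ltens X (o.ured S)) (R.tens (pw (o.E l hl) n) LC.C) := R.exch _ _
    have n8 : R.comp (o.E l hl) (R.tens (pw (o.E l hl) n) LC.C) = 0 := by
      conv_lhs => rw [hE]
      rw [R.assoc, ← hE, ← n7, ← R.assoc, n6, zero_comp]
    rw [← R.assoc, n8, zero_comp]

end Pool.Agent.Helper74.Stab
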